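import Mathlib

/-!
# `t`-independent sets in cyclic groups
-/

namespace Pool.Agent.Q248.TI

open Finset

/-- The `h`-fold signed sumset `h_±A` of a finite set `A`: all `∑ λ_a a` with `∑ |λ_a| = h`. -/
def signed {n : ℕ} (h : ℕ) (A : Finset (ZMod n)) : Set (ZMod n) :=
  {x | ∃ l : ZMod n → ℤ, ∑ a ∈ A, (l a).natAbs = h ∧ x = ∑ a ∈ A, (l a) • a}

/-- `[1,t]_±A`: the union of the `h_±A` over `1 ≤ h ≤ t`. -/
def signedUpTo {n : ℕ} (t : ℕ) (A : Finset (ZMod n)) : Set (ZMod n) :=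
  ⋃ h ∈ Set.Icc 1 t, signed h A

/-- `A` is `t`-independent: `0 ∉ [1,t]_±A`. -/
def Indep {n : ℕ} (t : ℕ) (A : Finset (ZMod n)) : Prop :=
  (0 : ZMod n) ∉ signedUpTo t A

/-- `τ_±(ℤ_n,[1,t])`: the largest size of a `t`-independent subset of `ℤ_n`. -/
noncomputable def tau (n t : ℕ) : ℕ :=
  sSup {m | ∃ A : Finset (ZMod n), Indep t A ∧ A.card = m}

theorem indep_iff {n t : ℕ} {A : Finset (ZMod n)} :
    Indep t A ↔ ∀ l : ZMod n → ℤ, ∑ a ∈ A, (l a).natAbs ≤ t → ∑ a ∈ A, (l a) • a = 0 →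
      ∀ a ∈ A, l a = 0 := by
  unfold Indep signedUpTo signed
  simp only [Set.mem_iUnion, not_exists]
  constructor
  · intro h l hl h0
    by_contra hne
    push Not at hne
    obtain ⟨a, ha, hla⟩ := hne
    refine h _ ⟨?_, hl⟩ ⟨l, rfl, h0.symm⟩
    have h1 : (l a).natAbs ≤ ∑ a ∈ A, (l a).natAbs :=
      single_le_sum (f := fun a => (l a).natAbs) (fun _ _ => Nat.zero_le _) ha
    have h2 : 0 < (l a).natAbs := Int.natAbs_pos.2 hla
    omega
  · rintro h k hk ⟨l, hl, h0⟩
    have h1 := h l (hl.le.trans hk.2) h0.symm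
    have h2 : ∑ a ∈ A, (l a).natAbs = 0 := sum_eq_zero (fun a ha => by rw [h1 a ha]; rfl)
    have := hk.1
    omega

theorem Indep.subset {n t : ℕ} {A B : Finset (ZMod n)} (hA : Indep t A) (hB : B ⊆ A) :
    Indep t B := by
  classical
  rw [indep_iff] at hA ⊢
  intro l hl h0 b hb
  have h := hA (fun a => if a ∈ B then l a else 0) ?_ ?_ b (hB hb)
  · simpa [hb] using h
  · have : ∑ a ∈ A, (if a ∈ B then l a else 0).natAbs = ∑ a ∈ B, (l a).natAbs := by
      rw [← sum_filter_add_sum_filter_not A (· ∈ B)]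
      rw [sum_eq_zero (s := A.filter (fun x => ¬ x ∈ B))
        (fun a ha => by rw [if_neg (mem_filter.1 ha).2]; rfl), add_zero]
      have h3 : A.filter (· ∈ B) = B := by
        ext x; simp only [mem_filter]; exact ⟨fun h => h.2, fun h => ⟨hB h, h⟩⟩
      rw [h3]
      exact sum_congr rfl (fun a ha => by rw [if_pos ha])
    rw [this]; exact hl
  · have : ∑ a ∈ A, (if a ∈ B then l a else 0) • a = ∑ a ∈ B, (l a) • a := by
      rw [← sum_filter_add_sum_filter_not A (· ∈ B)]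
      rw [sum_eq_zero (s := A.filter (fun x => ¬ x ∈ B))
        (fun a ha => by rw [if_neg (mem_filter.1 ha).2, zero_smul]), add_zero]
      have h3 : A.filter (· ∈ B) = B := by
        ext x; simp only [mem_filter]; exact ⟨fun h => h.2, fun h => ⟨hB h, h⟩⟩
      rw [h3]
      exact sum_congr rfl (fun a ha => by rw [if_pos ha])
    rw [this]; exact h0

theorem indep_empty {n t : ℕ} : Indep t (∅ : Finset (ZMod n)) := by
  rw [indep_iff]
  intro l _ _ a ha
  simp at ha

theorem tau_bdd {n t : ℕ} (hn : 0 < n) :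
    BddAbove {m | ∃ A : Finset (ZMod n), Indep t A ∧ A.card = m} := by
  haveI : NeZero n := ⟨hn.ne'⟩
  refine ⟨n, ?_⟩
  rintro m ⟨A, _, rfl⟩
  calc A.card ≤ Fintype.card (ZMod n) := card_le_univ A
    _ = n := ZMod.card n

theorem le_tau {n t : ℕ} (hn : 0 < n) {A : Finset (ZMod n)} (hA : Indep t A) :
    A.card ≤ tau n t :=
  le_csSup (tau_bdd hn) ⟨A, hA, rfl⟩

theorem tau_le {n t m : ℕ} (h : ∀ A : Finset (ZMod n), Indep t A → A.card ≤ m) :
    tau n t ≤ m := by
  refine csSup_le ⟨0, ∅, indep_empty, rfl⟩ ?_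
  rintro k ⟨A, hA, rfl⟩
  exact h A hA

/-- enough to exclude independent sets of size exactly `m + 1` -/
theorem tau_le_of_not {n t m : ℕ} (h : ∀ A : Finset (ZMod n), Indep t A → A.card ≠ m + 1) :
    tau n t ≤ m := by
  refine tau_le (fun A hA => ?_)
  by_contra hcon
  push Not at hcon
  obtain ⟨B, hB, hBc⟩ := exists_subset_card_eq hcon
  exact h B (hA.subset hB) hBc

theorem tau_zero {n t : ℕ} (hn : 0 < n) (hnt : n ≤ t) : tau n t = 0 := by
  refine Nat.le_zero.1 (tau_le_of_not ?_)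
  intro A hA hc
  rw [zero_add, card_eq_one] at hc
  obtain ⟨a, rfl⟩ := hc
  rw [indep_iff] at hA
  have := hA (fun _ => n) (by simpa using hnt) (by
    rw [sum_singleton]
    rw [zsmul_eq_mul]; simp) a (mem_singleton_self a)
  simp only [Nat.cast_eq_zero] at this
  omega

theorem one_le_tau {n t : ℕ} (hnt : t < n) : 1 ≤ tau n t := by
  have hA : Indep t ({1} : Finset (ZMod n)) := by
    rw [indep_iff]
    intro l hl h0 a ha
    rw [mem_singleton] at ha
    subst ha
    rw [sum_singleton] at hl h0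
    rw [zsmul_eq_mul, mul_one, ZMod.intCast_zmod_eq_zero_iff_dvd] at h0
    by_contra hne
    have h1 := Int.natAbs_dvd_natAbs.2 h0
    have h2 := Nat.le_of_dvd (Int.natAbs_pos.2 hne) h1
    simp only [Int.natAbs_natCast] at h2
    omega
  have := le_tau (by omega : 0 < n) hA
  simpa using this

/-- pair independence in coefficient form -/
def PI {n : ℕ} (t : ℕ) (a b : ZMod n) : Prop :=
  ∀ x y : ℤ, x.natAbs + y.natAbs ≤ t → x • a + y • b = 0 → x = 0 ∧ y = 0

theorem PI.of_indep {n t : ℕ} {a b : ZMod n} (hab : a ≠ b) (h : Indep t {a, b}) : PI t a b := by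
  rw [indep_iff] at h
  intro x y hxy h0
  have h1 := h (fun z => if z = a then x else y) (by
    rw [sum_pair hab, if_pos rfl, if_neg hab.symm]; exact hxy) (by
    rw [sum_pair hab, if_pos rfl, if_neg hab.symm]; exact h0)
  have ha := h1 a (by simp)
  have hb := h1 b (by simp)
  rw [if_pos rfl] at ha
  rw [if_neg hab.symm] at hb
  exact ⟨ha, hb⟩

theorem PI.ne {n t : ℕ} {a b : ZMod n} (ht : 2 ≤ t) (h : PI t a b) : a ≠ b := by
  rintro rfl
  have := h 1 (-1) (by simpa using ht) (by simp)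
  simp at this

theorem PI.indep {n t : ℕ} {a b : ZMod n} (ht : 2 ≤ t) (h : PI t a b) : Indep t {a, b} := by
  have hab := h.ne ht
  rw [indep_iff]
  intro l hl h0
  rw [sum_pair hab] at hl h0
  obtain ⟨h1, h2⟩ := h _ _ hl h0
  intro z hz
  rw [mem_insert, mem_singleton] at hz
  rcases hz with rfl | rfl
  · exact h1
  · exact h2

theorem PI.two_le_tau {n t : ℕ} (hn : 0 < n) {a b : ZMod n} (ht : 2 ≤ t) (h : PI t a b) :
    2 ≤ tau n t := by
  have := le_tau hn (h.indep ht)
  rwa [card_pair (h.ne ht)] at this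

theorem PI.neg_right {n t : ℕ} {a b : ZMod n} (h : PI t a b) : PI t a (-b) := by
  intro x y hxy h0
  have := h x (-y) (by rwa [Int.natAbs_neg]) (by rw [neg_smul, ← smul_neg]; exact h0)
  exact ⟨this.1, by simpa using this.2⟩

theorem tau_le_one {n t : ℕ} (h : ∀ a b : ZMod n, ¬ PI t a b) : tau n t ≤ 1 := by
  refine tau_le_of_not ?_
  intro A hA hc
  rw [card_eq_two] at hc
  obtain ⟨a, b, hab, rfl⟩ := hc
  exact h a b (PI.of_indep hab hA)

end Pool.Agent.Q248.TI
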