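import Pool.Agent.Q248.TI.Pair

/-!
# Explicit two-element `t`-independent sets in cyclic groups, `t = 2 s - 1`
-/

namespace Pool.Agent.Q248.TI

open Finset

theorem rel_cast {n : ℕ} (c d : ℕ) (x y : ℤ) (h : x • (c : ZMod n) + y • (d : ZMod n) = 0) :
    ∃ k : ℤ, x * c + y * d = n * k := by
  have h1 : ((x * c + y * d : ℤ) : ZMod n) = 0 := by
    push_cast
    rw [zsmul_eq_mul, zsmul_eq_mul] at h
    exact h
  rw [ZMod.intCast_zmod_eq_zero_iff_dvd] at h1
  exact h1

theorem PI.of_large {n s : ℕ} (hs : 0 < s) (hn : 2 * s * s + s ≤ n) :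
    PI (2 * s - 1) (s : ZMod n) ((s + 1 : ℕ) : ZMod n) := by
  intro x y hxy h0
  obtain ⟨k, hk⟩ := rel_cast _ _ _ _ h0
  push_cast at hk
  have hn' : 2 * (s : ℤ) * s + s ≤ n := by exact_mod_cast hn
  have hs' : (1 : ℤ) ≤ s := by exact_mod_cast hs
  have h1 : |x| + |y| ≤ 2 * s - 1 := by
    rw [Int.abs_eq_natAbs, Int.abs_eq_natAbs]; omega
  have hx := abs_le.1 (le_refl |x|)
  have hy := abs_le.1 (le_refl |y|)
  have hk0 : k = 0 := by
    have h2 : |(n : ℤ) * k| ≤ (2 * s - 1) * (s + 1) := by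
      rw [← hk]
      calc |x * s + y * (s + 1)| ≤ |x * s| + |y * (s + 1)| := abs_add_le _ _
        _ = |x| * s + |y| * (s + 1) := by
            rw [abs_mul, abs_mul, abs_of_nonneg (by omega : (0 : ℤ) ≤ s),
              abs_of_nonneg (by omega : (0 : ℤ) ≤ (s : ℤ) + 1)]
        _ ≤ (|x| + |y|) * (s + 1) := by nlinarith [abs_nonneg x]
        _ ≤ _ := by nlinarith
    rw [abs_mul, abs_of_nonneg (by omega : (0 : ℤ) ≤ n)] at h2
    by_contra hne
    have h3 : 1 ≤ |k| := Int.one_le_abs hne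
    nlinarith
  rw [hk0, mul_zero] at hk
  -- (x + y) * s = - y
  have h4 : (x + y) * s = -y := by linear_combination hk
  have h5 : x + y = 0 := by
    by_contra hne
    have h6 : 1 ≤ |x + y| := Int.one_le_abs hne
    have h7 : |x + y| * s = |y| := by
      rw [← abs_neg y, ← h4, abs_mul, abs_of_nonneg (by omega : (0 : ℤ) ≤ s)]
    have h8 : |x + y| < 2 := by
      by_contra hcon
      push Not at hcon
      have := abs_nonneg x
      nlinarith
    have h9 : |x + y| = 1 := by omega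
    rw [h9, one_mul] at h7
    rcases (abs_eq (by norm_num : (0 : ℤ) ≤ 1)).1 h9 with h10 | h10
    · rw [h10] at h4; omega
    · rw [h10] at h4; omega
  rw [h5, zero_mul] at h4
  omega

theorem PI.of_even {n s : ℕ} (hs : Even s) (hs0 : 0 < s) (hne : Even n) (hn : 2 * s * s ≤ n) :
    PI (2 * s - 1) ((s - 1 : ℕ) : ZMod n) ((s + 1 : ℕ) : ZMod n) := by
  intro x y hxy h0
  obtain ⟨k, hk⟩ := rel_cast _ _ _ _ h0
  obtain ⟨r, hr⟩ := hs
  obtain ⟨m, hm⟩ := hne
  have hs1 : ((s - 1 : ℕ) : ℤ) = (s : ℤ) - 1 := by omega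
  rw [hs1] at hk
  push_cast at hk
  have hn' : 2 * (s : ℤ) * s ≤ n := by exact_mod_cast hn
  have hs' : (2 : ℤ) ≤ s := by omega
  have hrz : (s : ℤ) = r + r := by exact_mod_cast hr
  have hmz : (n : ℤ) = m + m := by exact_mod_cast hm
  -- u = x + y, v = y - x
  have hu : |x + y| ≤ 2 * s - 1 := abs_le.2 ⟨by omega, by omega⟩
  have hv : |y - x| ≤ 2 * s - 1 := abs_le.2 ⟨by omega, by omega⟩
  obtain ⟨hu1, hu2⟩ := abs_le.1 hu
  obtain ⟨hv1, hv2⟩ := abs_le.1 hv
  have h4 : (x + y) * s + (y - x) = n * k := by linear_combination hk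
  have hk0 : k = 0 := by
    by_contra hne
    have h3 : 1 ≤ |k| := Int.one_le_abs hne
    rcases lt_or_gt_of_ne hne with hkn | hkp
    · -- k ≤ -1
      have h5 : (x + y) * s + (y - x) ≤ -(2 * s * s) := by nlinarith
      have h6 : x + y ≤ -(2 * s - 1) := by
        by_contra hcon
        push Not at hcon
        have : -(2 * (s : ℤ)) + 2 ≤ x + y := by omega
        nlinarith
      have h7 : x + y = -(2 * s - 1) := by omega
      rw [h7] at h4
      have h8 : y - x = 2 * m * k + (2 * s - 1) * s := by rw [hmz] at h4; linear_combination h4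
      have h9 : y - x = 2 * (m * k + (2 * s - 1) * r) := by
        have e : (2 * (s : ℤ) - 1) * s = 2 * ((2 * s - 1) * r) := by
          calc (2 * (s : ℤ) - 1) * s = (2 * s - 1) * (r + r) := by rw [← hrz]
            _ = _ := by ring
        rw [h8, e]; ring
      omega
    · have h5 : 2 * s * s ≤ (x + y) * s + (y - x) := by nlinarith
      have h6 : 2 * s - 1 ≤ x + y := by
        by_contra hcon
        push Not at hcon
        have : x + y ≤ 2 * (s : ℤ) - 2 := by omega
        nlinarith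
      have h7 : x + y = 2 * s - 1 := by omega
      rw [h7] at h4
      have h8 : y - x = 2 * m * k - (2 * s - 1) * s := by rw [hmz] at h4; linear_combination h4
      have h9 : y - x = 2 * (m * k - (2 * s - 1) * r) := by
        have e : (2 * (s : ℤ) - 1) * s = 2 * ((2 * s - 1) * r) := by
          calc (2 * (s : ℤ) - 1) * s = (2 * s - 1) * (r + r) := by rw [← hrz]
            _ = _ := by ring
        rw [h8, e]; ring
      omega
  rw [hk0, mul_zero] at h4
  have h10 : |x + y| < 2 := by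
    by_contra hcon
    push Not at hcon
    have h11 : |(x + y) * s| = |y - x| := by
      rw [show (x + y) * s = -(y - x) by linear_combination h4, abs_neg]
    rw [abs_mul, abs_of_nonneg (by omega : (0 : ℤ) ≤ s)] at h11
    nlinarith
  rcases (abs_lt.1 h10) with ⟨h12, h13⟩
  have h14 : x + y = 0 ∨ x + y = 1 ∨ x + y = -1 := by omega
  rcases h14 with h14 | h14 | h14
  · rw [h14] at h4; omega
  · rw [h14] at h4; omega
  · rw [h14] at h4; omega

theorem PI.of_two_mod_four {n s : ℕ} (hs : Odd s) (hs3 : 3 ≤ s) (hne : n % 4 = 2)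
    (hn : 2 * s * s ≤ n) :
    PI (2 * s - 1) ((s - 2 : ℕ) : ZMod n) ((s + 2 : ℕ) : ZMod n) := by
  intro x y hxy h0
  obtain ⟨k, hk⟩ := rel_cast _ _ _ _ h0
  obtain ⟨r, hr⟩ := hs
  have hs1 : ((s - 2 : ℕ) : ℤ) = (s : ℤ) - 2 := by omega
  rw [hs1] at hk
  push_cast at hk
  have hn' : 2 * (s : ℤ) * s ≤ n := by exact_mod_cast hn
  have hs' : (3 : ℤ) ≤ s := by omega
  have hrz : (s : ℤ) = 2 * r + 1 := by exact_mod_cast hr
  obtain ⟨m, hm⟩ : ∃ m : ℤ, (n : ℤ) = 4 * m + 2 := ⟨n / 4, by omega⟩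
  have hu : |x + y| ≤ 2 * s - 1 := abs_le.2 ⟨by omega, by omega⟩
  have hv : |y - x| ≤ 2 * s - 1 := abs_le.2 ⟨by omega, by omega⟩
  obtain ⟨hu1, hu2⟩ := abs_le.1 hu
  obtain ⟨hv1, hv2⟩ := abs_le.1 hv
  obtain ⟨w, hw⟩ : ∃ w : ℤ, y - x = (x + y) + 2 * w := ⟨-x, by ring⟩
  have h4 : (x + y) * s + 2 * (y - x) = n * k := by linear_combination hk
  have hk1 : |k| ≤ 1 := by
    by_contra hcon
    push Not at hcon
    have h2 : |(n : ℤ) * k| ≤ (2 * s - 1) * s + 2 * (2 * s - 1) := by
      rw [← h4]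
      calc |(x + y) * s + 2 * (y - x)| ≤ |(x + y) * s| + |2 * (y - x)| := abs_add_le _ _
        _ = |x + y| * s + 2 * |y - x| := by
            rw [abs_mul, abs_mul, abs_of_nonneg (by omega : (0 : ℤ) ≤ s), abs_two]
        _ ≤ _ := by nlinarith
    rw [abs_mul, abs_of_nonneg (by omega : (0 : ℤ) ≤ n)] at h2
    nlinarith
  -- generic contradiction for k = 1
  have key : ∀ u v : ℤ, (∃ w, v = u + 2 * w) → -(2 * (s : ℤ) - 1) ≤ u → u ≤ 2 * s - 1 →
      -(2 * (s : ℤ) - 1) ≤ v → v ≤ 2 * s - 1 → u * s + 2 * v = n → False := by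
    intro u v hw' a1 a2 a3 a4 h
    obtain ⟨w', hw'⟩ := hw'
    -- u even
    rw [hm, hrz] at h
    have e1 : Even u := by
      rcases Int.even_or_odd u with e | ⟨u', e⟩
      · exact e
      · exfalso
        rw [e] at h
        have : 2 * (2 * u' * r + u' + r + v - 2 * m - 1) + 1 = 0 := by linear_combination h
        omega
    obtain ⟨u', hu'⟩ := e1
    -- v = 2 (u' + w')
    have h5 : u' * (2 * r + 1) + 2 * (u' + w') = 2 * m + 1 := by
      have : 2 * (u' * (2 * r + 1) + 2 * (u' + w')) = 2 * (2 * m + 1) := by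
        rw [hu'] at h hw'
        rw [hw'] at h
        linear_combination h
      linarith
    have h6 : Odd u' := by
      rcases Int.even_or_odd u' with ⟨u'', e⟩ | e
      · exfalso
        rw [e] at h5
        have : 2 * (u'' * (2 * r + 1) + (u'' + u'' + w') - m) = 1 := by linear_combination h5
        omega
      · exact e
    obtain ⟨u'', hu''⟩ := h6
    -- u = 4 u'' + 2 ≤ 2 s - 4
    have h7 : u ≤ 2 * s - 4 := by omega
    have h8 : (2 * (s : ℤ) - 4) * s + 2 * (2 * s - 1) < 2 * s * s := by nlinarith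
    have h9 : u * s ≤ (2 * s - 4) * s := by nlinarith
    have h10 : u * s + 2 * v = n := by rw [hm, ← h]; rw [hrz]
    linarith
  obtain ⟨hk2, hk3⟩ := abs_le.1 hk1
  have h15 : k = 0 ∨ k = 1 ∨ k = -1 := by omega
  rcases h15 with hk0 | hk0 | hk0
  · rw [hk0, mul_zero] at h4
    have h10 : |x + y| < 4 := by
      by_contra hcon
      push Not at hcon
      have h11 : |(x + y) * s| = 2 * |y - x| := by
        rw [show (x + y) * s = -(2 * (y - x)) by linear_combination h4, abs_neg, abs_mul, abs_two]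
      rw [abs_mul, abs_of_nonneg (by omega : (0 : ℤ) ≤ s)] at h11
      nlinarith
    rcases (abs_lt.1 h10) with ⟨h12, h13⟩
    have h14 : x + y = 0 ∨ x + y = 1 ∨ x + y = -1 ∨ x + y = 2 ∨ x + y = -2 ∨ x + y = 3 ∨
      x + y = -3 := by omega
    rcases h14 with h14 | h14 | h14 | h14 | h14 | h14 | h14 <;> rw [h14] at h4 <;> omega
  · exact (key (x + y) (y - x) ⟨w, hw⟩ (by omega) (by omega) (by omega) (by omega)
      (by rw [h4, hk0, mul_one])).elim
  · exact (key (-(x + y)) (-(y - x)) ⟨-w, by rw [hw]; ring⟩ (by omega) (by omega) (by omega)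
      (by omega) (by rw [hk0] at h4; linear_combination -h4)).elim

end Pool.Agent.Q248.TI
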