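import Pool.Agent.Q248.TI.Basic

/-!
# Two-element `t`-independent sets in cyclic groups, `t = 2 s - 1`
-/

namespace Pool.Agent.Q248.TI

open Finset

/-- all points of the square are separated -/
theorem PI.inj {n s : ℕ} {a b : ZMod n} (h : PI (2 * s - 1) a b) :
    Function.Injective (fun p : Fin (2 * s) × Fin s =>
      ((((p.1 : ℕ) + 1) / 2 : ℕ) + (p.2 : ℕ) : ℤ) • a +
        ((((p.1 : ℕ)) / 2 : ℕ) - (p.2 : ℕ) : ℤ) • b) := by
  rintro ⟨⟨u, hu⟩, ⟨j, hj⟩⟩ ⟨⟨u', hu'⟩, ⟨j', hj'⟩⟩ heq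
  simp only at heq
  have h1 := h (((((u + 1) / 2 : ℕ) + (j : ℕ) : ℤ)) - ((((u' + 1) / 2 : ℕ) + (j' : ℕ) : ℤ)))
    (((((u / 2 : ℕ)) - (j : ℕ) : ℤ)) - (((u' / 2 : ℕ) - (j' : ℕ) : ℤ))) (by omega) (by
      rw [sub_smul, sub_smul]
      have h2 : ∀ p q r v : ZMod n, p + q = r + v → p - r + (q - v) = 0 := by
        intro p q r v h; linear_combination h
      exact h2 _ _ _ _ heq)
  simp only [Prod.mk.injEq, Fin.mk.injEq]
  omega

/-- the counting bound -/
theorem PI.le_card {n s : ℕ} (hn : 0 < n) {a b : ZMod n} (h : PI (2 * s - 1) a b)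
    (K : AddSubgroup (ZMod n)) (ha : a ∈ K) (hb : b ∈ K) : 2 * s * s ≤ Nat.card K := by
  haveI : NeZero n := ⟨hn.ne'⟩
  have h1 : Function.Injective (fun p : Fin (2 * s) × Fin s =>
      (⟨((((p.1 : ℕ) + 1) / 2 : ℕ) + (p.2 : ℕ) : ℤ) • a +
        ((((p.1 : ℕ)) / 2 : ℕ) - (p.2 : ℕ) : ℤ) • b,
        K.add_mem (K.zsmul_mem ha _) (K.zsmul_mem hb _)⟩ : K)) := by
    intro p q hpq
    apply h.inj
    simpa using hpq
  have h2 := Nat.card_le_card_of_injective _ h1
  simpa using h2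

theorem PI.le {n s : ℕ} (hn : 0 < n) {a b : ZMod n} (h : PI (2 * s - 1) a b) :
    2 * s * s ≤ n := by
  have := h.le_card hn ⊤ trivial trivial
  simpa using this

/-- the boundary relation -/
theorem PI.exists_rel {n s : ℕ} (hn : 0 < n) (hns : n < 2 * s * s + s) {a b : ZMod n}
    (h : PI (2 * s - 1) a b) :
    ∃ p : ℤ, |p| ≤ (s : ℤ) - 1 ∧ ((s : ℤ) + p) • a + ((s : ℤ) - p) • b = 0 := by
  haveI : NeZero n := ⟨hn.ne'⟩
  have hcard : Fintype.card (ZMod n) < Fintype.card (Fin (2 * s + 1) × Fin s) := by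
    simp only [ZMod.card, Fintype.card_prod, Fintype.card_fin]
    nlinarith
  obtain ⟨⟨⟨u, hu⟩, ⟨j, hj⟩⟩, ⟨⟨u', hu'⟩, ⟨j', hj'⟩⟩, hne, heq⟩ :=
    Fintype.exists_ne_map_eq_of_card_lt (fun p : Fin (2 * s + 1) × Fin s =>
      ((((p.1 : ℕ) + 1) / 2 : ℕ) + (p.2 : ℕ) : ℤ) • a +
        ((((p.1 : ℕ)) / 2 : ℕ) - (p.2 : ℕ) : ℤ) • b) hcard
  simp only [ne_eq, Prod.mk.injEq, Fin.mk.injEq] at hne heq
  set x : ℤ := ((((u + 1) / 2 : ℕ) + (j : ℕ) : ℤ)) - ((((u' + 1) / 2 : ℕ) + (j' : ℕ) : ℤ)) with hx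
  set y : ℤ := ((((u / 2 : ℕ)) - (j : ℕ) : ℤ)) - (((u' / 2 : ℕ) - (j' : ℕ) : ℤ)) with hy
  have h0 : x • a + y • b = 0 := by
    rw [hx, hy, sub_smul, sub_smul]
    have h2 : ∀ p q r v : ZMod n, p + q = r + v → p - r + (q - v) = 0 := by
      intro p q r v h; linear_combination h
    exact h2 _ _ _ _ heq
  have h3 : ¬ (x.natAbs + y.natAbs ≤ 2 * s - 1) := by
    intro hle
    have := h x y hle h0
    omega
  have h4 : x + y = 2 * s ∨ x + y = -(2 * s) := by omega
  rcases h4 with h4 | h4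
  · refine ⟨x - s, abs_le.2 ⟨by omega, by omega⟩, ?_⟩
    rw [show (s : ℤ) + (x - s) = x by ring, show (s : ℤ) - (x - s) = y by omega]
    exact h0
  · refine ⟨-x - s, abs_le.2 ⟨by omega, by omega⟩, ?_⟩
    rw [show (s : ℤ) + (-x - s) = -x by ring, show (s : ℤ) - (-x - s) = -y by omega]
    rw [neg_smul, neg_smul, ← neg_add, h0, neg_zero]

/-- the structure of a dense pair -/
theorem PI.structure {n s : ℕ} (hn : 0 < n) (hs : 0 < s) (hns : n < 2 * s * s + s) {a b : ZMod n}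
    (h : PI (2 * s - 1) a b) :
    ∃ p q : ℤ, |p| ≤ (s : ℤ) - 1 ∧ |q| ≤ (s : ℤ) - 1 ∧
      ((s : ℤ) + p) • a + ((s : ℤ) - p) • b = 0 ∧
      ((s : ℤ) + q) • a - ((s : ℤ) - q) • b = 0 ∧ (n : ℤ) = 2 * s * s - 2 * p * q := by
  haveI : NeZero n := ⟨hn.ne'⟩
  obtain ⟨p, hp, h1⟩ := h.exists_rel hn hns
  obtain ⟨q, hq, h2⟩ := h.neg_right.exists_rel hn hns
  rw [smul_neg, ← sub_eq_add_neg] at h2
  refine ⟨p, q, hp, hq, h1, h2, ?_⟩
  set D : ℤ := 2 * s * s - 2 * p * q with hD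
  have hDa : D • a = 0 := by
    have : D • a = ((s : ℤ) - q) • (((s : ℤ) + p) • a + ((s : ℤ) - p) • b) +
        ((s : ℤ) - p) • (((s : ℤ) + q) • a - ((s : ℤ) - q) • b) := by
      rw [hD]; simp only [zsmul_eq_mul]; push_cast; ring
    rw [this, h1, h2, smul_zero, smul_zero, add_zero]
  have hDb : D • b = 0 := by
    have : D • b = ((s : ℤ) + q) • (((s : ℤ) + p) • a + ((s : ℤ) - p) • b) -
        ((s : ℤ) + p) • (((s : ℤ) + q) • a - ((s : ℤ) - q) • b) := by
      rw [hD]; simp only [zsmul_eq_mul]; push_cast; ring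
    rw [this, h1, h2, smul_zero, smul_zero, sub_zero]
  set K : AddSubgroup (ZMod n) := (zsmulAddGroupHom D).ker with hK
  have haK : a ∈ K := by rw [hK, AddMonoidHom.mem_ker]; exact hDa
  have hbK : b ∈ K := by rw [hK, AddMonoidHom.mem_ker]; exact hDb
  have hle := h.le_card hn K haK hbK
  have hdvd : Nat.card K ∣ n := by
    have := AddSubgroup.card_addSubgroup_dvd_card K
    simpa using this
  have hKn : Nat.card K = n := by
    obtain ⟨k, hk⟩ := hdvd
    have hk1 : k = 1 := by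
      rcases Nat.lt_or_ge k 2 with hk2 | hk2
      · rcases Nat.eq_zero_or_pos k with h0 | h0
        · rw [h0, mul_zero] at hk; omega
        · omega
      · exfalso
        have : 2 * s * s * 2 ≤ n := by rw [hk]; exact Nat.mul_le_mul hle hk2
        have : s ≤ s * s := Nat.le_mul_of_pos_left s hs
        nlinarith
    rw [hk1, mul_one] at hk
    exact hk.symm
  have hKtop : K = ⊤ := by
    apply AddSubgroup.eq_top_of_card_eq
    rw [hKn, Nat.card_zmod]
  have h1K : (1 : ZMod n) ∈ K := by rw [hKtop]; trivial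
  rw [hK, AddMonoidHom.mem_ker] at h1K
  change D • (1 : ZMod n) = 0 at h1K
  rw [zsmul_eq_mul, mul_one, ZMod.intCast_zmod_eq_zero_iff_dvd] at h1K
  obtain ⟨k, hk⟩ := h1K
  have hn2 : 2 * (s : ℤ) * s ≤ n := by exact_mod_cast h.le hn
  obtain ⟨hp1, hp2⟩ := abs_le.1 hp
  obtain ⟨hq1, hq2⟩ := abs_le.1 hq
  have hpq : |p * q| ≤ ((s : ℤ) - 1) * ((s : ℤ) - 1) := by
    rw [abs_mul]; exact mul_le_mul hp hq (abs_nonneg _) (by omega)
  obtain ⟨hpq1, hpq2⟩ := abs_le.1 hpq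
  have hs' : (1 : ℤ) ≤ s := by exact_mod_cast hs
  have hDpos : 0 < D := by rw [hD]; nlinarith
  have hDlt : D < 2 * n := by rw [hD]; nlinarith
  have hnpos : (0 : ℤ) < n := by exact_mod_cast hn
  have hk1 : k = 1 := by
    have : 0 < k := by
      by_contra hcon
      push Not at hcon
      nlinarith
    have : k < 2 := by
      by_contra hcon
      push Not at hcon
      nlinarith
    omega
  rw [hk1, mul_one] at hk
  exact hk.symm

/-- no pair when `n` is odd -/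
theorem PI.not_odd {n s : ℕ} (hn : 0 < n) (hs : 0 < s) (hns : n < 2 * s * s + s) {a b : ZMod n}
    (h : PI (2 * s - 1) a b) : ¬ Odd n := by
  obtain ⟨p, q, -, -, -, -, hD⟩ := h.structure hn hs hns
  rintro ⟨k, rfl⟩
  push_cast at hD
  have : 2 * ((s : ℤ) * s - p * q - k) = 1 := by linear_combination -hD
  omega

theorem two_smul_eq_zero {n : ℕ} (hn : 0 < n) {g g' : ZMod n} (h : (2 : ℤ) • g = 0)
    (h' : (2 : ℤ) • g' = 0) (hg : g ≠ 0) (hg' : g' ≠ 0) : g = g' := by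
  haveI : NeZero n := ⟨hn.ne'⟩
  have key : ∀ z : ZMod n, (2 : ℤ) • z = 0 → z ≠ 0 → 2 * z.val = n := by
    intro z hz hz0
    have h1 : ((2 * z.val : ℕ) : ZMod n) = 0 := by
      push_cast
      rw [ZMod.natCast_zmod_val]
      rw [zsmul_eq_mul] at hz
      exact_mod_cast hz
    rw [ZMod.natCast_eq_zero_iff] at h1
    obtain ⟨k, hk⟩ := h1
    have h2 : z.val < n := ZMod.val_lt z
    have h3 : 0 < z.val := by
      rcases Nat.eq_zero_or_pos z.val with h0 | h0
      · exact absurd ((ZMod.val_eq_zero z).1 h0) hz0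
      · exact h0
    have hk1 : k = 1 := by
      have : k < 2 := by
        by_contra hcon
        push Not at hcon
        nlinarith
      have : 0 < k := by
        rcases Nat.eq_zero_or_pos k with h0 | h0
        · rw [h0, mul_zero] at hk; omega
        · exact h0
      omega
    rw [hk, hk1, mul_one]
  apply ZMod.val_injective n
  have := key g h hg
  have := key g' h' hg'
  omega

/-- no pair when `s` is odd and `4 ∣ n` -/
theorem PI.not_four {n s : ℕ} (hn : 0 < n) (hs : Odd s) (hns : n < 2 * s * s + s) {a b : ZMod n}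
    (h : PI (2 * s - 1) a b) : ¬ 4 ∣ n := by
  have hs0 : 0 < s := hs.pos
  obtain ⟨p, q, hp, hq, h1, h2, hD⟩ := h.structure hn hs0 hns
  rintro ⟨m, rfl⟩
  push_cast at hD
  have hpq : Odd (p * q) := by
    have h3 : p * q = s * s - 2 * m := by linarith
    rw [h3]
    have : Odd ((s : ℤ) * s) := by
      have : Odd (s : ℤ) := by exact_mod_cast hs
      exact this.mul this
    exact this.sub_even (even_two_mul _)
  rw [Int.odd_mul] at hpq
  obtain ⟨⟨p', hp'⟩, ⟨q', hq'⟩⟩ := hpq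
  obtain ⟨s', hs'⟩ := hs
  obtain ⟨hp1, hp2⟩ := abs_le.1 hp
  obtain ⟨hq1, hq2⟩ := abs_le.1 hq
  have hsz : (s : ℤ) = 2 * s' + 1 := by exact_mod_cast hs'
  set α : ℤ := s' + p' + 1 with hα
  set β : ℤ := s' - p' with hβ
  set γ : ℤ := s' + q' + 1 with hγ
  set δ : ℤ := s' - q' with hδ
  have e1 : (2 : ℤ) • (α • a + β • b) = 0 := by
    have : (2 : ℤ) • (α • a + β • b) = ((s : ℤ) + p) • a + ((s : ℤ) - p) • b := by
      rw [smul_add, smul_smul, smul_smul]
      congr 2 <;> omega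
    rw [this, h1]
  have e2 : (2 : ℤ) • (γ • a - δ • b) = 0 := by
    have : (2 : ℤ) • (γ • a - δ • b) = ((s : ℤ) + q) • a - ((s : ℤ) - q) • b := by
      rw [smul_sub, smul_smul, smul_smul]
      congr 2 <;> omega
    rw [this, h2]
  have n1 : α • a + β • b ≠ 0 := by
    intro h0
    have := h α β (by omega) h0
    omega
  have n2 : γ • a - δ • b ≠ 0 := by
    intro h0
    have := h γ (-δ) (by omega) (by rw [neg_smul, ← sub_eq_add_neg]; exact h0)
    omega
  have heq := two_smul_eq_zero hn e1 e2 n1 n2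
  have := h (α - γ) (β + δ) (by omega) (by
    rw [sub_smul, add_smul β δ]
    have h2 : ∀ p q r v : ZMod (4 * m), p + q = r - v → p - r + (q + v) = 0 := by
      intro p q r v h; linear_combination h
    exact h2 _ _ _ _ heq)
  omega

end Pool.Agent.Q248.TI
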