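import Pool.Agent.Q248.TI.Basic

/-!
# Certified search for `t`-independent sets in cyclic groups
-/

namespace Pool.Agent.Q248.TI

open Finset

/-- independence of a finite set of natural numbers modulo `n` -/
def IndN (n t : ℕ) (X : Finset ℕ) : Prop :=
  ∀ l : ℕ → ℤ, ∑ x ∈ X, (l x).natAbs ≤ t → (n : ℤ) ∣ ∑ x ∈ X, l x * x → ∀ x ∈ X, l x = 0

theorem IndN.of_indep {n t : ℕ} [NeZero n] (ht : 2 ≤ t) {A : Finset (ZMod n)} (hA : Indep t A) :
    IndN n t (A.image (fun a => a.valMinAbs.natAbs)) ∧
      (A.image (fun a => a.valMinAbs.natAbs)).card = A.card := by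
  classical
  rw [indep_iff] at hA
  have h0 : ∀ a ∈ A, a ≠ 0 := by
    rintro a ha rfl
    have := hA (fun z => if z = 0 then 1 else 0) (by
      rw [sum_eq_single (0 : ZMod n)]
      · simp; omega
      · intro b _ hb; rw [if_neg hb]; rfl
      · intro h; exact absurd ha h) (by
      apply sum_eq_zero
      intro b _
      split_ifs with h
      · rw [h, smul_zero]
      · rw [zero_smul]) 0 ha
    simp at this
  have hinj : ∀ a ∈ A, ∀ b ∈ A, a.valMinAbs.natAbs = b.valMinAbs.natAbs → a = b := by
    intro a ha b hb hab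
    by_contra hne
    rcases Int.natAbs_eq_natAbs_iff.1 hab with h | h
    · exact hne (by rw [← ZMod.coe_valMinAbs a, ← ZMod.coe_valMinAbs b, h])
    · have hab' : a = -b := by
        rw [← ZMod.coe_valMinAbs a, ← ZMod.coe_valMinAbs b, h]; push_cast; rfl
      have := hA (fun z => if z = a then 1 else if z = b then 1 else 0) (by
        rw [← sum_subset (s₁ := {a, b}) (by
          intro z hz; rw [mem_insert, mem_singleton] at hz; rcases hz with rfl | rfl <;> assumption)
          (by
            intro z _ hz
            rw [mem_insert, mem_singleton, not_or] at hz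
            rw [if_neg hz.1, if_neg hz.2]; rfl)]
        rw [sum_pair hne, if_pos rfl, if_neg (Ne.symm hne), if_pos rfl]
        simpa using ht) (by
        rw [← sum_subset (s₁ := {a, b}) (by
          intro z hz; rw [mem_insert, mem_singleton] at hz; rcases hz with rfl | rfl <;> assumption)
          (by
            intro z _ hz
            rw [mem_insert, mem_singleton, not_or] at hz
            rw [if_neg hz.1, if_neg hz.2, zero_smul])]
        rw [sum_pair hne, if_pos rfl, if_neg (Ne.symm hne), if_pos rfl, one_smul, one_smul, hab']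
        simp) a ha
      simp at this
  have hinj' : Set.InjOn (fun a : ZMod n => a.valMinAbs.natAbs) A := by
    intro a ha b hb hab
    exact hinj a ha b hb hab
  refine ⟨?_, card_image_of_injOn hinj'⟩
  intro l hl hdvd
  rw [sum_image hinj'] at hl hdvd
  have hkey := hA (fun a => l a.valMinAbs.natAbs * a.valMinAbs.sign) (by
    refine le_trans (sum_le_sum (fun a ha => ?_)) hl
    rw [Int.natAbs_mul]
    calc _ ≤ (l a.valMinAbs.natAbs).natAbs * 1 := by
          apply Nat.mul_le_mul_left
          rw [Int.natAbs_sign]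
          split_ifs <;> omega
      _ = _ := mul_one _) (by
    rw [← ZMod.intCast_zmod_eq_zero_iff_dvd] at hdvd
    rw [← hdvd]
    push_cast
    refine sum_congr rfl (fun a ha => ?_)
    rw [zsmul_eq_mul]
    push_cast
    rw [mul_assoc]
    congr 1
    have h1 : (a.valMinAbs.sign : ℤ) * a.valMinAbs = a.valMinAbs.natAbs := by
      rw [Int.sign_mul_self_eq_natAbs]
    have h2 : ((a.valMinAbs.sign * a.valMinAbs : ℤ) : ZMod n) = ((a.valMinAbs.natAbs : ℤ) : ZMod n) := by
      rw [h1]
    rw [Int.cast_mul, ZMod.coe_valMinAbs, Int.cast_natCast] at h2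
    rw [h2, Nat.cast_natAbs])
  intro x hx
  rw [mem_image] at hx
  obtain ⟨a, ha, rfl⟩ := hx
  have h3 := hkey a ha
  rcases mul_eq_zero.1 h3 with h4 | h4
  · exact h4
  · exfalso
    rw [Int.sign_eq_zero_iff_zero, ZMod.valMinAbs_eq_zero] at h4
    exact h0 a ha h4

/-- scaling by a unit -/
theorem Indep.scale {n t : ℕ} {A : Finset (ZMod n)} (hA : Indep t A) (u : (ZMod n)ˣ) :
    Indep t (A.image (fun a => (u : ZMod n) * a)) := by
  classical
  rw [indep_iff] at hA ⊢
  have hinj : Function.Injective (fun a : ZMod n => (u : ZMod n) * a) := by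
    intro a b hab
    exact u.isUnit.mul_left_cancel hab
  intro l hl h0
  rw [sum_image (fun a _ b _ h => hinj h)] at hl h0
  have h := hA (fun a => l (u * a)) hl (by
    have h1 : (u : ZMod n) * ∑ a ∈ A, (l (u * a)) • a = 0 := by
      rw [mul_sum, ← h0]
      refine sum_congr rfl (fun a _ => ?_)
      rw [mul_smul_comm]
    exact (u.isUnit.mul_right_eq_zero).1 h1)
  intro x hx
  rw [mem_image] at hx
  obtain ⟨a, ha, rfl⟩ := hx
  exact h a ha

/-- all forms with nonzero coefficients of total weight at most `b` are nonzero mod `n` -/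
def fnz (n : ℕ) : List ℕ → ℕ → ℕ → Bool
  | [], _, acc => !(acc % n == 0)
  | x :: L, b, acc =>
    (List.range (b - L.length)).all (fun c =>
      fnz n L (b - (c + 1)) (acc + (c + 1) * x) && fnz n L (b - (c + 1)) (acc + (c + 1) * (n - x)))

theorem fnz_true {n : ℕ} (L : List ℕ) : ∀ (b acc : ℕ), L.Nodup → (∀ x ∈ L, x ≤ n) →
    (∀ l : ℕ → ℤ, (∀ x ∈ L, l x ≠ 0) → (L.map (fun x => (l x).natAbs)).sum ≤ b →
      ¬ (n : ℤ) ∣ acc + (L.map (fun x => l x * (x : ℤ))).sum) → fnz n L b acc = true := by
  induction L with
  | nil =>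
    intro b acc _ _ h
    have h1 := h (fun _ => 1) (by simp) (by simp)
    simp only [List.map_nil, List.sum_nil, add_zero] at h1
    simp only [fnz, Bool.not_eq_true', beq_eq_false_iff_ne, ne_eq]
    intro h2
    exact h1 (by exact_mod_cast Nat.dvd_of_mod_eq_zero h2)
  | cons x L ih =>
    intro b acc hnd hle h
    rw [List.nodup_cons] at hnd
    have hx : x ≤ n := hle x (by simp)
    have hle' : ∀ y ∈ L, y ≤ n := fun y hy => hle y (by simp [hy])
    simp only [fnz, List.all_eq_true, List.mem_range, Bool.and_eq_true]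
    intro c hc
    have key : ∀ (e : ℤ), e.natAbs = c + 1 → ∀ l : ℕ → ℤ, (∀ y ∈ L, l y ≠ 0) →
        (L.map (fun y => (l y).natAbs)).sum ≤ b - (c + 1) →
        ¬ (n : ℤ) ∣ acc + (e * x + (L.map (fun y => l y * (y : ℤ))).sum) := by
      intro e he l hl hsum
      have hupd : ∀ y ∈ L, Function.update l x e y = l y := by
        intro y hy
        rw [Function.update_of_ne]
        rintro rfl
        exact hnd.1 hy
      have := h (Function.update l x e) (by
        intro y hy
        rcases List.mem_cons.1 hy with rfl | hy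
        · rw [Function.update_self]; omega
        · rw [hupd y hy]; exact hl y hy) (by
        rw [List.map_cons, List.sum_cons, Function.update_self, he]
        rw [List.map_congr_left (g := fun y => (l y).natAbs) (fun y hy => by rw [hupd y hy])]
        omega)
      rw [List.map_cons, List.sum_cons, Function.update_self,
        List.map_congr_left (g := fun y => l y * (y : ℤ)) (fun y hy => by rw [hupd y hy])] at this
      exact this
    constructor
    · refine ih _ _ hnd.2 hle' ?_
      intro l hl hsum hdvd
      refine key (c + 1) (by omega) l hl hsum ?_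
      push_cast at hdvd
      rwa [add_assoc] at hdvd
    · refine ih _ _ hnd.2 hle' ?_
      intro l hl hsum hdvd
      refine key (-(c + 1)) (by omega) l hl hsum ?_
      have h1 : (((acc + (c + 1) * (n - x) : ℕ)) : ℤ) = acc + (c + 1) * n - (c + 1) * x := by
        rw [Nat.cast_add, Nat.cast_mul, Nat.cast_sub hx]; push_cast; ring
      rw [h1] at hdvd
      have h2 : (acc : ℤ) + (-(c + 1) * x + (L.map (fun y => l y * (y : ℤ))).sum) =
          (acc + (c + 1) * n - (c + 1) * x + (L.map (fun y => l y * (y : ℤ))).sum) -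
            n * (c + 1) := by ring
      rw [h2]
      exact dvd_sub hdvd (dvd_mul_right _ _)

theorem IndN.fnz {n t : ℕ} {X : Finset ℕ} (hX : IndN n t X) {L : List ℕ} (hnd : L.Nodup)
    (hL : ∀ x ∈ L, x ∈ X) (hle : ∀ x ∈ L, x ≤ n) (hne : L ≠ []) : fnz n L t 0 = true := by
  classical
  apply fnz_true L t 0 hnd hle
  intro l hl hsum hdvd
  rw [Nat.cast_zero, zero_add] at hdvd
  have hsub : L.toFinset ⊆ X := by
    intro x hx
    exact hL x (List.mem_toFinset.1 hx)
  have h := hX (fun x => if x ∈ L.toFinset then l x else 0) (by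
    rw [← sum_subset hsub (fun x _ hx => by rw [if_neg hx]; rfl)]
    rw [sum_congr rfl (g := fun x => (l x).natAbs) (fun x hx => by rw [if_pos hx])]
    rw [List.sum_toFinset _ hnd]
    exact hsum) (by
    rw [← sum_subset hsub (fun x _ hx => by rw [if_neg hx, zero_mul])]
    rw [sum_congr rfl (g := fun x => l x * (x : ℤ)) (fun x hx => by rw [if_pos hx])]
    rw [List.sum_toFinset _ hnd]
    exact hdvd)
  obtain ⟨x, hx⟩ := List.exists_mem_of_ne_nil L hne
  have h1 := h x (hL x hx)
  rw [if_pos (List.mem_toFinset.2 hx)] at h1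
  exact hl x hx h1

/-- sublists -/
def subs : List ℕ → List (List ℕ)
  | [] => [[]]
  | x :: S => subs S ++ (subs S).map (x :: ·)

theorem subs_sublist {S : List ℕ} : ∀ T ∈ subs S, T.Sublist S := by
  induction S with
  | nil => intro T hT; simp only [subs, List.mem_singleton] at hT; rw [hT]
  | cons x S ih =>
    intro T hT
    simp only [subs, List.mem_append, List.mem_map] at hT
    rcases hT with hT | ⟨T', hT', rfl⟩
    · exact (ih T hT).cons x
    · exact (ih T' hT').cons_cons x

/-- `y` is compatible with `x :: S` as far as forms involving both `x` and `y` go -/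
def okx (n t : ℕ) (x : ℕ) (S : List ℕ) (y : ℕ) : Bool :=
  (subs S).all (fun T => fnz n (y :: x :: T) t 0)

/-- no independent extension of `S` by `k` elements of `L` -/
def go (n t : ℕ) : ℕ → List ℕ → List ℕ → Bool
  | 0, _, _ => false
  | k + 1, S, L => L.tails.all (fun T => match T with
    | [] => true
    | x :: L' => go n t k (x :: S) (L'.filter (okx n t x S)))

theorem mem_tails_of_sublist {x : ℕ} {T L : List ℕ} (h : (x :: T).Sublist L) :
    ∃ L', (x :: L') ∈ L.tails ∧ T.Sublist L' := by
  induction L with
  | nil => exact absurd h (by simp)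
  | cons y L ih =>
    rw [List.tails_cons]
    rcases List.sublist_cons_iff.1 h with h | ⟨r, hr, h⟩
    · obtain ⟨L', h1, h2⟩ := ih h
      exact ⟨L', List.mem_cons_of_mem _ h1, h2⟩
    · rw [List.cons.injEq] at hr
      obtain ⟨rfl, rfl⟩ := hr
      exact ⟨L, by simp, h⟩

theorem go_sound {n t : ℕ} {X : Finset ℕ} (hX : IndN n t X) (hXn : ∀ x ∈ X, x ≤ n) :
    ∀ (k : ℕ) (S L T : List ℕ), go n t k S L = true → T.Sublist L → T.length = k →
      (T ++ S).Nodup → (∀ x ∈ T ++ S, x ∈ X) → False := by
  intro k
  induction k with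
  | zero => intro S L T h; simp [go] at h
  | succ k ih =>
    intro S L T h hTL hlen hnd hmem
    match T, hlen with
    | x :: T', hlen =>
      obtain ⟨L', h1, h2⟩ := mem_tails_of_sublist hTL
      simp only [go, List.all_eq_true] at h
      have h3 := h _ h1
      simp only at h3
      have hperm : ((x :: T') ++ S).Perm (T' ++ (x :: S)) := List.perm_middle.symm
      have hnd' : (T' ++ (x :: S)).Nodup := hperm.nodup_iff.1 hnd
      have hmem' : ∀ y ∈ T' ++ (x :: S), y ∈ X := fun y hy => hmem y (hperm.mem_iff.2 hy)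
      refine ih (x :: S) _ T' h3 ?_ (by simpa using hlen) hnd' hmem'
      have h4 : T'.filter (okx n t x S) = T' := by
        rw [List.filter_eq_self]
        intro y hy
        simp only [okx, List.all_eq_true]
        intro R hR
        have hRS := subs_sublist R hR
        have hsl : (y :: x :: R).Subperm (T' ++ (x :: S)) := by
          have e1 : [y].Sublist T' := List.singleton_sublist.2 hy
          have e2 : (x :: R).Sublist (x :: S) := hRS.cons_cons x
          exact (e1.append e2).subperm
        have hnd2 : (y :: x :: R).Nodup := by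
          obtain ⟨l, hl, hl'⟩ := hsl
          exact hl.nodup_iff.1 (hnd'.sublist hl')
        exact hX.fnz hnd2 (fun z hz => hmem' z (hsl.subset hz))
          (fun z hz => hXn z (hmem' z (hsl.subset hz))) (by simp)
      rw [← h4]
      exact h2.filter _

/-- full check of a list: all nonzero forms of weight at most `b` are nonzero mod `n` -/
def chk (n : ℕ) : List ℕ → ℕ → ℕ → Bool → Bool
  | [], _, acc, nz => !nz || !(acc % n == 0)
  | x :: L, b, acc, nz => chk n L b acc nz && (List.range b).all (fun c =>
      chk n L (b - (c + 1)) (acc + (c + 1) * x) true &&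
        chk n L (b - (c + 1)) (acc + (c + 1) * (n - x)) true)

theorem chk_sound {n : ℕ} (L : List ℕ) : ∀ (b acc : ℕ) (nz : Bool), chk n L b acc nz = true →
    (∀ x ∈ L, x ≤ n) → ∀ l : ℕ → ℤ, (L.map (fun x => (l x).natAbs)).sum ≤ b →
    (nz = true ∨ ∃ x ∈ L, l x ≠ 0) → ¬ (n : ℤ) ∣ acc + (L.map (fun x => l x * (x : ℤ))).sum := by
  induction L with
  | nil =>
    intro b acc nz h _ l _ hnz
    simp only [chk, Bool.or_eq_true, Bool.not_eq_true', beq_eq_false_iff_ne, ne_eq] at h
    simp only [List.not_mem_nil, false_and, exists_false, or_false] at hnz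
    rw [hnz] at h
    simp only [Bool.true_eq_false, false_or] at h
    simp only [List.map_nil, List.sum_nil, add_zero]
    intro h1
    apply h
    exact Nat.mod_eq_zero_of_dvd (by exact_mod_cast h1)
  | cons x L ih =>
    intro b acc nz h hle l hsum hnz
    have hx : x ≤ n := hle x (by simp)
    have hle' : ∀ y ∈ L, y ≤ n := fun y hy => hle y (by simp [hy])
    simp only [chk, Bool.and_eq_true, List.all_eq_true, List.mem_range] at h
    rw [List.map_cons, List.sum_cons] at hsum ⊢
    rcases Nat.eq_zero_or_pos (l x).natAbs with h0 | hpos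
    · have h0' : l x = 0 := Int.natAbs_eq_zero.1 h0
      rw [h0', zero_mul, zero_add]
      refine ih b acc nz h.1 hle' l (by omega) ?_
      rcases hnz with hnz | ⟨y, hy, hly⟩
      · exact Or.inl hnz
      · right
        rcases List.mem_cons.1 hy with rfl | hy
        · exact absurd h0' hly
        · exact ⟨y, hy, hly⟩
    · obtain ⟨c, hc⟩ : ∃ c, (l x).natAbs = c + 1 := ⟨_, (Nat.succ_pred_eq_of_pos hpos).symm⟩
      have h1 := h.2 c (by omega)
      rcases Int.natAbs_eq (l x) with he | he
      · have h2 := ih _ _ _ h1.1 hle' l (by omega) (Or.inl rfl)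
        intro hdvd
        apply h2
        rw [he, hc] at hdvd
        push_cast at hdvd ⊢
        rwa [add_assoc]
      · have h2 := ih _ _ _ h1.2 hle' l (by omega) (Or.inl rfl)
        intro hdvd
        apply h2
        rw [he, hc] at hdvd
        have h3 : (((acc + (c + 1) * (n - x) : ℕ)) : ℤ) = acc + (c + 1) * n - (c + 1) * x := by
          rw [Nat.cast_add, Nat.cast_mul, Nat.cast_sub hx]; push_cast; ring
        rw [h3]
        have h4 : (acc : ℤ) + (c + 1) * n - (c + 1) * x + (L.map (fun y => l y * (y : ℤ))).sum =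
            (acc + (-((c + 1 : ℕ) : ℤ) * x + (L.map (fun y => l y * (y : ℤ))).sum)) +
              n * (c + 1) := by push_cast; ring
        rw [h4]
        exact dvd_add hdvd (dvd_mul_right _ _)

/-- a checked list gives an independent set -/
theorem indep_of_chk {n t : ℕ} (L : List ℕ) (hL : (L.map (fun x : ℕ => (x : ZMod n))).Nodup)
    (hle : ∀ x ∈ L, x ≤ n) (h : chk n L t 0 false = true) :
    Indep t (L.map (fun x : ℕ => (x : ZMod n))).toFinset := by
  classical
  rw [indep_iff]
  intro l hl h0
  rw [List.sum_toFinset _ hL, List.map_map] at hl h0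
  by_contra hne
  push Not at hne
  obtain ⟨a, ha, hla⟩ := hne
  rw [List.mem_toFinset, List.mem_map] at ha
  obtain ⟨x, hx, rfl⟩ := ha
  refine chk_sound L t 0 false h hle (fun x => l (x : ZMod n)) hl (Or.inr ⟨x, hx, hla⟩) ?_
  rw [Nat.cast_zero, zero_add, ← ZMod.intCast_zmod_eq_zero_iff_dvd]
  rw [← h0]
  have h5 : ∀ M : List ℕ, (((M.map (fun x : ℕ => l (x : ZMod n) * (x : ℤ))).sum : ℤ) : ZMod n) =
      (M.map ((fun a => l a • a) ∘ fun x : ℕ => (x : ZMod n))).sum := by
    intro M
    induction M with
    | nil => simp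
    | cons y M ihM =>
      rw [List.map_cons, List.sum_cons, List.map_cons, List.sum_cons, Int.cast_add, ihM]
      simp only [Function.comp, Int.cast_mul, Int.cast_natCast, zsmul_eq_mul]
  exact h5 L

end Pool.Agent.Q248.TI
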