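import Pool.Agent.Q248.TI.Search

/-!
# The values of `τ_±(ℤ_n,[1,4])` at `n = 71` and `n = 73`
-/

namespace Pool.Agent.Q248.TI

open Finset

theorem chk71 : chk 71 [1, 4, 11, 17, 31] 4 0 false = true := by decide +kernel

theorem go73 : go 73 4 4 [1] ((List.range' 2 35).filter (fun y => fnz 73 [y, 1] 4 0)) = true := by
  decide +kernel

theorem five_le_tau71 : 5 ≤ tau 71 4 := by
  have hnd : (([1, 4, 11, 17, 31] : List ℕ).map (fun x : ℕ => (x : ZMod 71))).Nodup := by
    decide
  have h := le_tau (by norm_num) (indep_of_chk [1, 4, 11, 17, 31] hnd (by decide) chk71)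
  rw [List.toFinset_card_of_nodup hnd] at h
  simpa using h

instance : Fact (Nat.Prime 73) := ⟨by norm_num⟩

theorem tau73_le : tau 73 4 ≤ 4 := by
  classical
  refine tau_le_of_not ?_
  intro A hA hc
  -- scale so that `1 ∈ A`
  have hne : A.Nonempty := by rw [← card_pos]; omega
  obtain ⟨a, ha⟩ := hne
  have ha0 : a ≠ 0 := by
    rintro rfl
    have h1 := (hA.subset (singleton_subset_iff.2 ha))
    rw [indep_iff] at h1
    have := h1 (fun _ => 1) (by simp) (by simp) 0 (mem_singleton_self _)
    simp at this
  set u : (ZMod 73)ˣ := (Units.mk0 a ha0)⁻¹ with hu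
  have hA' := hA.scale u
  have hinj : Function.Injective (fun x : ZMod 73 => (u : ZMod 73) * x) := by
    intro x y hxy
    exact u.isUnit.mul_left_cancel hxy
  have hc' : (A.image (fun x => (u : ZMod 73) * x)).card = 5 := by
    rw [card_image_of_injective _ hinj, hc]
  have h1A : (1 : ZMod 73) ∈ A.image (fun x => (u : ZMod 73) * x) := by
    rw [mem_image]
    refine ⟨a, ha, ?_⟩
    rw [hu, Units.val_inv_eq_inv_val, Units.val_mk0, inv_mul_cancel₀ ha0]
  set B := A.image (fun x => (u : ZMod 73) * x) with hB
  obtain ⟨hX, hXc⟩ := IndN.of_indep (by norm_num : 2 ≤ 4) hA'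
  set X := B.image (fun a => a.valMinAbs.natAbs) with hXdef
  rw [hc'] at hXc
  have h1X : 1 ∈ X := by
    rw [hXdef, mem_image]
    exact ⟨1, h1A, by decide⟩
  have hXle : ∀ x ∈ X, x ≤ 36 := by
    intro x hx
    rw [hXdef, mem_image] at hx
    obtain ⟨b, _, rfl⟩ := hx
    have := ZMod.natAbs_valMinAbs_le b
    simpa using this
  have hX0 : ∀ x ∈ X, x ≠ 0 := by
    rintro x hx rfl
    have := hX (fun z => if z = 0 then 1 else 0) (by
      rw [sum_eq_single 0]
      · simp
      · intro b _ hb; rw [if_neg hb]; rfl
      · intro h; exact absurd hx h) (by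
      rw [sum_eq_zero]
      · simp
      · intro b _
        split_ifs with h
        · rw [h]; simp
        · simp) 0 hx
    simp at this
  set T : List ℕ := (List.range' 2 35).filter (fun y => decide (y ∈ X)) with hT
  have hTmem : ∀ y, y ∈ T ↔ y ∈ X ∧ y ≠ 1 := by
    intro y
    rw [hT, List.mem_filter, List.mem_range'_1, decide_eq_true_iff]
    constructor
    · rintro ⟨h1, h2⟩
      exact ⟨h2, by omega⟩
    · rintro ⟨h1, h2⟩
      have := hXle y h1
      have := hX0 y h1
      exact ⟨⟨by omega, by omega⟩, h1⟩
  have hTnd : T.Nodup := (List.nodup_range' (s := 2) (n := 35)).filter _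
  have hTcard : T.length = 4 := by
    rw [← List.toFinset_card_of_nodup hTnd]
    have : T.toFinset = X.erase 1 := by
      ext y
      rw [List.mem_toFinset, hTmem, mem_erase]
      tauto
    rw [this, card_erase_of_mem h1X, hXc]
  have hall : ∀ x ∈ T ++ [1], x ∈ X := by
    intro x hx
    rw [List.mem_append, List.mem_singleton] at hx
    rcases hx with hx | rfl
    · exact ((hTmem x).1 hx).1
    · exact h1X
  refine go_sound (t := 4) (n := 73) hX (fun x hx => (hXle x hx).trans (by norm_num)) 4 [1] _ T
    go73 ?_ hTcard ?_ hall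
  · rw [hT]
    have h3 : (List.range' 2 35).filter (fun y => decide (y ∈ X)) =
        ((List.range' 2 35).filter (fun y => decide (y ∈ X))).filter
          (fun y => fnz 73 [y, 1] 4 0) := by
      symm
      rw [List.filter_eq_self]
      intro y hy
      have hy' := (hTmem y).1 hy
      refine hX.fnz ?_ ?_ ?_ (by simp)
      · simp [hy'.2]
      · intro z hz
        simp only [List.mem_cons, List.not_mem_nil, or_false] at hz
        rcases hz with rfl | rfl
        · exact hy'.1
        · exact h1X
      · intro z hz
        simp only [List.mem_cons, List.not_mem_nil, or_false] at hz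
        rcases hz with rfl | rfl
        · exact (hXle _ hy'.1).trans (by norm_num)
        · norm_num
    rw [h3]
    exact (List.filter_sublist).filter _
  · rw [List.nodup_append]
    refine ⟨hTnd, by simp, ?_⟩
    intro x hx y hy
    rw [List.mem_singleton] at hy
    rw [hy]
    exact ((hTmem x).1 hx).2

end Pool.Agent.Q248.TI
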